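import Pool.Agent.H30.MV.VRamsey

/-!
# Boolean Ramsey numbers of the symmetric V-shaped posets

For all `k ≥ 1` and all `m_1, ..., m_k ≥ 1` the weak and the induced Boolean Ramsey number of the
posets `V_{m_i,m_i}` are both equal to `m_1 + ... + m_k + 1`.
-/

namespace Pool.Agent.Results.MP_f041cb_co.VRamsey

open Pool.H30.MV.VRamsey

open Finset

/-- **Main theorem.** For all `k ≥ 1` and all `m_1, ..., m_k ≥ 1`, the weak and the induced Boolean
Ramsey numbers of `V_{m_1,m_1}, ..., V_{m_k,m_k}` both equal `m_1 + ... + m_k + 1` (and the least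
`n` in their definitions exists). -/
theorem result (k : ℕ) (hk : 1 ≤ k) (m : Fin k → ℕ) (hm : ∀ i, 1 ≤ m i) :
    weakBoolRamsey (fun i => V (m i) (m i)) = ∑ i, m i + 1 ∧
    boolRamsey (fun i => V (m i) (m i)) = ∑ i, m i + 1 ∧
    IsLeast {n | ForcesWeak (fun i => V (m i) (m i)) n} (∑ i, m i + 1) ∧
    IsLeast {n | Forces (fun i => V (m i) (m i)) n} (∑ i, m i + 1) :=
  Pool.H30.MV.VRamsey.result k hk m hm

end Pool.Agent.Results.MP_f041cb_co.VRamsey
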